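import Pool.Agent.KTB.StmtsKA

set_option autoImplicit false

namespace Pool.Agent.KTB.H73

open Finset
open scoped Classical

theorem ray_mono' {ι T : Type} [Fintype ι] (D : Dat ι T) {S Q Q' : Finset ι} {p : ι → ℚ}
    {f : (ι → ℚ) → ℚ} (h : D.Ray S Q p f) (hQ : Q' ⊆ Q) : D.Ray S Q' p f :=
  ⟨hQ.trans h.1, fun r hr => h.2.1 r (hQ hr), h.2.2⟩

theorem priv_mono' {ι T : Type} [Fintype ι] (D : Dat ι T) {S S' : Finset ι} {a : ι} {i : T}
    (h : D.Priv S a i) (hS : S' ⊆ S) (ha : a ∈ S') : D.Priv S' a i :=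
  ⟨ha, h.2.1, fun b hb hba => h.2.2 b (hS hb) hba⟩

theorem clo (hI : IdnStmt) (hR : RayStmt) : CloStmt := by
  intro ι T _ D S Q Wc X₀ p f π kk hLL hRay hWS hW hπ hall hX₀ hpriv
  -- closed sets
  set Cl : Finset ι → Prop := fun X' =>
    ∀ W ∈ Wc, ∀ j, j ≠ kk W → D.Priv (S \ X') W j → π W ∈ X' with hCl
  set X : Finset ι := Q.filter fun x => ∀ X' ⊆ Q, X₀ ⊆ X' → Cl X' → x ∈ X' with hX
  have hXQ : X ⊆ Q := Finset.filter_subset _ _
  have hX₀X : X₀ ⊆ X := by
    intro x hx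
    rw [hX, Finset.mem_filter]
    exact ⟨hX₀ hx, fun X' _ h0 _ => h0 hx⟩
  have hmin : ∀ X' ⊆ Q, X₀ ⊆ X' → Cl X' → X ⊆ X' := by
    intro X' hX' h0 hc x hx
    rw [hX, Finset.mem_filter] at hx
    exact hx.2 X' hX' h0 hc
  have hsub : ∀ {A B : Finset ι}, A ⊆ B → S \ B ⊆ S \ A := by
    intro A B hAB x hx
    rw [Finset.mem_sdiff] at hx ⊢
    exact ⟨hx.1, fun hm => hx.2 (hAB hm)⟩
  have hWmem : ∀ W ∈ Wc, ∀ A ⊆ Q, W ∈ S \ A := by
    intro W hWc A hA
    rw [Finset.mem_sdiff]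
    exact ⟨hWS hWc, fun hm => (hW W hWc).1 (hA hm)⟩
  have hXcl : Cl X := by
    intro W hWc j hj hp
    rw [hX, Finset.mem_filter]
    refine ⟨(hW W hWc).2.1, fun X' hX' h0 hc => ?_⟩
    have hXX' : X ⊆ X' := hmin X' hX' h0 hc
    exact hc W hWc j hj (priv_mono' D hp (hsub hXX') (hWmem W hWc X' hX'))
  -- (1)
  have h1 : ∀ x ∈ X, x ∉ X₀ → ∃ W ∈ Wc, π W = x ∧ ∃ j, j ≠ kk W ∧ D.Priv (S \ X) W j := by
    set X1 : Finset ι := X.filter fun x => x ∈ X₀ ∨
      ∃ W ∈ Wc, π W = x ∧ ∃ j, j ≠ kk W ∧ D.Priv (S \ X) W j with hX1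
    have hX1X : X1 ⊆ X := Finset.filter_subset _ _
    have hX01 : X₀ ⊆ X1 := by
      intro x hx
      rw [hX1, Finset.mem_filter]
      exact ⟨hX₀X hx, Or.inl hx⟩
    have hcl1 : Cl X1 := by
      intro W hWc j hj hp
      have hp' : D.Priv (S \ X) W j := priv_mono' D hp (hsub hX1X) (hWmem W hWc X hXQ)
      rw [hX1, Finset.mem_filter]
      exact ⟨hXcl W hWc j hj hp', Or.inr ⟨W, hWc, rfl, j, hj, hp'⟩⟩
    intro x hx hx0
    have hx1 := hmin X1 (hX1X.trans hXQ) hX01 hcl1 hx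
    rw [hX1, Finset.mem_filter] at hx1
    exact hx1.2.resolve_left hx0
  refine ⟨X, hX₀X, hXQ, hXcl, hmin, ?_, ?_, ?_⟩
  · intro x hx hx0
    obtain ⟨W, hWc, he, _⟩ := h1 x hx hx0
    exact ⟨W, hWc, he⟩
  · -- (2)
    intro hne
    have hRX := ray_mono' D hRay hXQ
    obtain ⟨hform, -, hsolex, -, -, hleaf⟩ := hR ι T D S X p f hRX hne
    refine ⟨hne, hRX, hsolex, ?_⟩
    intro Y i hYi
    by_contra hcon
    have huniq : ∀ j, D.Priv (S \ X) Y j → j = i := by
      intro j hj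
      by_contra hji
      exact hcon ⟨j, hji, hj⟩
    obtain ⟨⟨x, hxX, hxi⟩, hc⟩ := hleaf hLL Y i hYi huniq
    have hYS : Y ∈ S := (Finset.mem_sdiff.mp hYi.1).1
    have hYW : Y ∈ Wc := hall Y hYS _ hc (hform Y i hYi)
    obtain ⟨hYQ, hπQ, hcl⟩ := hW Y hYW
    by_cases hik : i = kk Y
    · have hxπ : x = π Y := by
        by_contra hxne
        have hxY : x ≠ Y := fun he => hYQ (he ▸ hXQ hxX)
        apply hxi
        rw [hik]
        exact hcl.2.2.2.2.2 x (hRay.1 (hXQ hxX)) hxY hxne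
      by_cases hx0 : π Y ∈ X₀
      · obtain ⟨j, hj, hpj⟩ := hpriv Y hYW hx0
        apply hj
        rw [← hik]
        exact huniq j (priv_mono' D hpj (hsub hX₀X) (hWmem Y hYW X hXQ))
      · obtain ⟨W, hWc, heW, j, hj, hpj⟩ := h1 (π Y) (hxπ ▸ hxX) hx0
        have hWY : W = Y := hπ hWc hYW heW
        rw [hWY] at hj hpj
        apply hj
        rw [← hik]
        exact huniq j hpj
    · have hπX : π Y ∈ X := hXcl Y hYW i hik hYi
      apply hik
      symm
      apply huniq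
      refine ⟨hYi.1, hcl.2.2.2.1, fun b hb hbY => ?_⟩
      rw [Finset.mem_sdiff] at hb
      exact hcl.2.2.2.2.2 b hb.1 hbY (fun he => hb.2 (he ▸ hπX))
  · -- (3)
    intro b hb hb0
    set X2 : Finset ι := X.filter fun x => b ≤ p x with hX2
    have hX2X : X2 ⊆ X := Finset.filter_subset _ _
    have hX02 : X₀ ⊆ X2 := by
      intro x hx
      rw [hX2, Finset.mem_filter]
      exact ⟨hX₀X hx, hb0 x hx⟩
    have hcl2 : Cl X2 := by
      intro W hWc j hj hp
      have hp' : D.Priv (S \ X) W j := priv_mono' D hp (hsub hX2X) (hWmem W hWc X hXQ)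
      have hπX : π W ∈ X := hXcl W hWc j hj hp'
      rw [hX2, Finset.mem_filter]
      refine ⟨hπX, ?_⟩
      obtain ⟨-, hπQ, hcl⟩ := hW W hWc
      have hX2S : X2 ⊆ S := (hX2X.trans hXQ).trans hRay.1
      -- the identity of `j`
      have e1 : ∀ l, D.Sol S l → l W = 1 - (∑ x ∈ X2, (D.x j x : ℚ) * p x) * f l := by
        intro l hl
        have hid := (hI ι T D S).1 l hl j
        rw [← Finset.sum_sdiff hX2S] at hid
        have s1 : ∑ a ∈ S \ X2, (D.x j a : ℚ) * l a = l W := by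
          rw [Finset.sum_eq_single_of_mem W hp.1]
          · rw [hp.2.1]; push_cast; ring
          · intro c hc hne
            rw [hp.2.2 c hc hne]; push_cast; ring
        have s2 : ∑ x ∈ X2, (D.x j x : ℚ) * l x = (∑ x ∈ X2, (D.x j x : ℚ) * p x) * f l := by
          rw [Finset.sum_mul]
          apply Finset.sum_congr rfl
          intro x hx
          rw [(hRay.2.1 x (hXQ (hX2X hx))).2 l hl]; ring
        rw [s1, s2] at hid
        linarith
      have e2 : ∀ l, D.Sol S l → l W = 1 - p (π W) * f l := by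
        intro l hl
        have h5 := ((hI ι T D S).2.2.2.2 (kk W) W (π W) hcl).1 l hl
        rw [(hRay.2.1 (π W) hπQ).2 l hl] at h5
        linarith
      have heq : p (π W) = ∑ x ∈ X2, (D.x j x : ℚ) * p x := by
        obtain ⟨l, l', hl, hl', hd⟩ := hRay.2.2
        by_contra hne
        apply hd
        have g1 : (p (π W) - ∑ x ∈ X2, (D.x j x : ℚ) * p x) * f l =
            (p (π W) - ∑ x ∈ X2, (D.x j x : ℚ) * p x) * f l' := by
          have a1 := e1 l hl
          have a2 := e2 l hl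
          have a3 := e1 l' hl'
          have a4 := e2 l' hl'
          linarith
        exact mul_left_cancel₀ (sub_ne_zero.mpr hne) g1
      have hpos : 0 < p (π W) := (hRay.2.1 (π W) hπQ).1
      have hex : ∃ x ∈ X2, D.x j x ≠ 0 := by
        by_contra hcon
        push Not at hcon
        rw [Finset.sum_eq_zero (fun x hx => by rw [hcon x hx]; push_cast; ring)] at heq
        rw [heq] at hpos
        exact lt_irrefl _ hpos
      obtain ⟨x, hx, hxj⟩ := hex
      have hle : (D.x j x : ℚ) * p x ≤ p (π W) := by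
        rw [heq]
        apply Finset.single_le_sum (f := fun x => (D.x j x : ℚ) * p x) _ hx
        intro y hy
        have := (hRay.2.1 y (hXQ (hX2X hy))).1
        positivity
      have hbx : b ≤ p x := (Finset.mem_filter.mp hx).2
      have h1x : (1 : ℚ) ≤ D.x j x := by exact_mod_cast Nat.one_le_iff_ne_zero.mpr hxj
      nlinarith
    intro x hx
    have := hmin X2 (hX2X.trans hXQ) hX02 hcl2 hx
    exact (Finset.mem_filter.mp this).2

end Pool.Agent.KTB.H73
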