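import Pool.Agent.KTB.StmtsKA

set_option autoImplicit false

namespace Pool.Agent.KTB.H73

open Finset
open scoped Classical

theorem ray_mono {ι T : Type} [Fintype ι] (D : Dat ι T) {S Q Q' : Finset ι} {p : ι → ℚ}
    {f : (ι → ℚ) → ℚ} (h : D.Ray S Q p f) (hQ : Q' ⊆ Q) : D.Ray S Q' p f :=
  ⟨hQ.trans h.1, fun r hr => h.2.1 r (hQ hr), h.2.2⟩

theorem priv_mono {ι T : Type} [Fintype ι] (D : Dat ι T) {S S' : Finset ι} {a : ι} {i : T}
    (h : D.Priv S a i) (hS : S' ⊆ S) (ha : a ∈ S') : D.Priv S' a i :=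
  ⟨ha, h.2.1, fun b hb hba => h.2.2 b (hS hb) hba⟩

theorem pel (hR : RayStmt) : PelStmt := by
  intro ι T _ _ D S Q p f hLL hRay hno
  obtain ⟨n, hn⟩ : ∃ n, Q.card = n := ⟨_, rfl⟩
  induction n generalizing Q with
  | zero =>
    have hQ : Q = ∅ := Finset.card_eq_zero.mp hn
    subst hQ
    exact ⟨fun _ => 0, id, fun _ => Classical.arbitrary T, by simp, by simp, by simp⟩
  | succ n ih =>
    have hQne : Q.Nonempty := by
      rw [← Finset.card_pos, hn]; exact Nat.succ_pos n
    obtain ⟨-, -, hsolex, -, -, hleaf⟩ := hR ι T D S Q p f hRay hQne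
    obtain ⟨Y0, i0, hp0, hu0⟩ : ∃ Y i, D.Priv (S \ Q) Y i ∧
        ∀ j, D.Priv (S \ Q) Y j → j = i := by
      by_contra hcon
      apply hno Q (Finset.Subset.refl Q) hQne
      refine ⟨hsolex, fun a i hai => ?_⟩
      by_contra hc
      apply hcon
      refine ⟨a, i, hai, fun j hj => ?_⟩
      by_contra hji
      exact hc ⟨j, hji, hj⟩
    obtain ⟨⟨A0, hA0Q, hA0x⟩, -⟩ := hleaf hLL Y0 i0 hp0 hu0
    have hsub : Q.erase A0 ⊆ Q := Finset.erase_subset _ _
    have hcard : (Q.erase A0).card = n := by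
      rw [Finset.card_erase_of_mem hA0Q, hn]; rfl
    obtain ⟨h', Y', κ', hh', hY', hall⟩ := ih (Q.erase A0) (ray_mono D hRay hsub)
      (fun R hRQ hRne => hno R (hRQ.trans hsub) hRne) hcard
    have hY0S : Y0 ∈ S := (Finset.mem_sdiff.mp hp0.1).1
    have hY0Q : Y0 ∉ Q := (Finset.mem_sdiff.mp hp0.1).2
    -- the facts on the elements of the smaller set
    have key : ∀ A ∈ Q.erase A0, Y' A ≠ A0 ∧ Y' A ≠ Y0 := by
      intro A hA
      obtain ⟨hYS, hYQ, hxA, hpr, huniq⟩ := hall A hA
      set Q1 : Finset ι := (Q.erase A0).filter fun r => h' A ≤ h' r with hQ1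
      have hAQ1 : A ∈ Q1 := by
        rw [hQ1, Finset.mem_filter]; exact ⟨hA, le_refl _⟩
      have hQ1Q : Q1 ⊆ Q := (Finset.filter_subset _ _).trans hsub
      have hA0Q1 : A0 ∉ Q1 := by
        intro hm
        exact Finset.notMem_erase A0 Q (Finset.mem_of_mem_filter A0 hm)
      obtain ⟨hform, -, -, -, -, hpos⟩ := hR ι T D S Q1 p f (ray_mono D hRay hQ1Q) ⟨A, hAQ1⟩
      have hc := (hpos hLL (Y' A) (κ' A) hpr huniq).2
      refine ⟨fun hYA0 => ?_, fun hYY0 => ?_⟩
      · obtain ⟨l, l', hl, hl', hne⟩ := hRay.2.2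
        have e1 := hform (Y' A) (κ' A) hpr l hl
        have e2 := hform (Y' A) (κ' A) hpr l' hl'
        rw [hYA0] at e1 e2
        have g1 := (hRay.2.1 A0 hA0Q).2 l hl
        have g2 := (hRay.2.1 A0 hA0Q).2 l' hl'
        have hp := (hRay.2.1 A0 hA0Q).1
        rw [g1] at e1
        rw [g2] at e2
        apply hne
        have hpc : 0 < p A0 + ∑ r ∈ Q1, (D.x (κ' A) r : ℚ) * p r := by linarith
        have : (p A0 + ∑ r ∈ Q1, (D.x (κ' A) r : ℚ) * p r) * f l =
            (p A0 + ∑ r ∈ Q1, (D.x (κ' A) r : ℚ) * p r) * f l' := by linarith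
        exact mul_left_cancel₀ hpc.ne' this
      · have hpr0 : D.Priv (S \ Q) Y0 (κ' A) := by
          refine ⟨hp0.1, ?_, fun b hb hbY => ?_⟩
          · rw [← hYY0]; exact hpr.2.1
          · apply hpr.2.2 b
            · rw [Finset.mem_sdiff] at hb ⊢
              exact ⟨hb.1, fun hm => hb.2 (hQ1Q hm)⟩
            · rw [hYY0]; exact hbY
        have hk : κ' A = i0 := hu0 _ hpr0
        have hz : D.x (κ' A) A0 = 0 := by
          apply hpr.2.2 A0
          · rw [Finset.mem_sdiff]; exact ⟨hRay.1 hA0Q, hA0Q1⟩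
          · rw [hYY0]; intro he; exact hY0Q (he ▸ hA0Q)
        rw [hk] at hz
        exact hA0x hz
    have hmem : ∀ A ∈ Q, A ≠ A0 → A ∈ Q.erase A0 := fun A hA hne =>
      Finset.mem_erase.mpr ⟨hne, hA⟩
    refine ⟨fun A => if A = A0 then 0 else h' A + 1, fun A => if A = A0 then Y0 else Y' A,
      fun A => if A = A0 then i0 else κ' A, ?_, ?_, ?_⟩
    · intro A hA B hB hAB
      have hA' : A ∈ Q := hA
      have hB' : B ∈ Q := hB
      simp only at hAB
      by_cases hA0 : A = A0
      · by_cases hB0 : B = A0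
        · rw [hA0, hB0]
        · rw [if_pos hA0, if_neg hB0] at hAB
          exact absurd hAB (Nat.succ_ne_zero _).symm
      · by_cases hB0 : B = A0
        · rw [if_neg hA0, if_pos hB0] at hAB
          exact absurd hAB (Nat.succ_ne_zero _)
        · rw [if_neg hA0, if_neg hB0] at hAB
          exact hh' (hmem A hA' hA0) (hmem B hB' hB0) (Nat.succ_injective hAB)
    · intro A hA B hB hAB
      have hA' : A ∈ Q := hA
      have hB' : B ∈ Q := hB
      simp only at hAB
      by_cases hA0 : A = A0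
      · by_cases hB0 : B = A0
        · rw [hA0, hB0]
        · rw [if_pos hA0, if_neg hB0] at hAB
          exact absurd hAB.symm (key B (hmem B hB' hB0)).2
      · by_cases hB0 : B = A0
        · rw [if_neg hA0, if_pos hB0] at hAB
          exact absurd hAB (key A (hmem A hA' hA0)).2
        · rw [if_neg hA0, if_neg hB0] at hAB
          exact hY' (hmem A hA' hA0) (hmem B hB' hB0) hAB
    · intro A hA
      by_cases hA0 : A = A0
      · have hfil : (Q.filter fun r => (if A = A0 then 0 else h' A + 1) ≤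
            (if r = A0 then 0 else h' r + 1)) = Q := by
          apply Finset.filter_true_of_mem
          intro r _
          rw [if_pos hA0]; exact Nat.zero_le _
        simp only
        rw [hfil, if_pos hA0, if_pos hA0]
        refine ⟨hY0S, hY0Q, ?_, hp0, hu0⟩
        rw [hA0]; exact hA0x
      · have hA' := hmem A hA hA0
        obtain ⟨hYS, hYQ, hxA, hpr, huniq⟩ := hall A hA'
        have hfil : (Q.filter fun r => (if A = A0 then 0 else h' A + 1) ≤
            (if r = A0 then 0 else h' r + 1)) = (Q.erase A0).filter fun r => h' A ≤ h' r := by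
          ext r
          rw [Finset.mem_filter, Finset.mem_filter, Finset.mem_erase]
          rw [if_neg hA0]
          by_cases hr : r = A0
          · rw [if_pos hr]
            constructor
            · intro hh; exact absurd hh.2 (by omega)
            · intro hh; exact absurd hr hh.1.1
          · rw [if_neg hr]
            constructor
            · intro hh; exact ⟨⟨hr, hh.1⟩, by omega⟩
            · intro hh; exact ⟨hh.1.2, by omega⟩
        simp only
        rw [hfil, if_neg hA0, if_neg hA0]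
        refine ⟨hYS, fun hm => ?_, hxA, hpr, huniq⟩
        exact hYQ (hmem _ hm (key A hA').1)

end Pool.Agent.KTB.H73
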