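import Pool.Agent.KTB.StmtsKA

set_option autoImplicit false

namespace Pool.Agent.KTB.H73

open Finset
open scoped Classical

theorem clean_sum {ι T : Type} [Fintype ι] (D : Dat ι T) {S : Finset ι} {k : T} {y y' : ι}
    (h : D.Clean S k y y') (g : ι → ℚ) : ∑ a ∈ S, (D.x k a : ℚ) * g a = g y + g y' := by
  obtain ⟨hy, hy', hne, h1, h2, h3⟩ := h
  rw [Finset.sum_eq_add_of_mem y y' hy hy' hne]
  · rw [h1, h2]; push_cast; ring
  · intro c hc hcc
    rw [h3 c hc hcc.1 hcc.2]; push_cast; ring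

theorem pm_val {ι T : Type} [Fintype ι] (D : Dat ι T) {S A : Finset ι} {M : Finset T}
    (h : D.PM S A M) {k : T} (hk : k ∈ M) {a : ι} (ha : a ∈ S) (hx : D.x k a ≠ 0) :
    D.x k a = 1 ∧ a ∈ A := by
  obtain ⟨y, hy, y', hy', hc⟩ := h.1 k hk
  by_cases h1 : a = y
  · rw [h1]; exact ⟨hc.2.2.2.1, hy⟩
  · by_cases h2 : a = y'
    · rw [h2]; exact ⟨hc.2.2.2.2.1, hy'⟩
    · exact absurd (hc.2.2.2.2.2 a ha h1 h2) hx

theorem pm_sum {ι T : Type} [Fintype ι] (D : Dat ι T) {S A : Finset ι} {M : Finset T}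
    (hA : A ⊆ S) (h : D.PM S A M) (g : ι → ℚ) :
    ∑ k ∈ M, ∑ a ∈ S, (D.x k a : ℚ) * g a = ∑ a ∈ A, g a := by
  have e1 : ∀ k ∈ M, ∑ a ∈ S, (D.x k a : ℚ) * g a = ∑ a ∈ A, (D.x k a : ℚ) * g a := by
    intro k hk
    symm
    apply Finset.sum_subset hA
    intro a haS haA
    have hz : D.x k a = 0 := by
      by_contra hx
      exact haA (pm_val D h hk haS hx).2
    rw [hz]; push_cast; ring
  rw [Finset.sum_congr rfl e1, Finset.sum_comm]
  apply Finset.sum_congr rfl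
  intro a ha
  obtain ⟨k0, ⟨hk0, hx⟩, huniq⟩ := h.2 a ha
  rw [Finset.sum_eq_single_of_mem k0 hk0]
  · rw [(pm_val D h hk0 (hA ha) hx).1]; push_cast; ring
  · intro k hk hne
    have hz : D.x k a = 0 := by
      by_contra hxk
      exact hne (huniq k ⟨hk, hxk⟩)
    rw [hz]; push_cast; ring

theorem pm_card {ι T : Type} [Fintype ι] (D : Dat ι T) {S A : Finset ι} {M : Finset T}
    (hA : A ⊆ S) (h : D.PM S A M) : (M.card : ℚ) * 2 = A.card := by
  have e := pm_sum D hA h (fun _ => 1)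
  rw [Finset.sum_const, nsmul_eq_mul, mul_one] at e
  rw [← e]
  have e1 : ∀ k ∈ M, ∑ a ∈ S, (D.x k a : ℚ) * (fun _ => (1 : ℚ)) a = 2 := by
    intro k hk
    obtain ⟨y, _, y', _, hc⟩ := h.1 k hk
    rw [clean_sum D hc]; norm_num
  rw [Finset.sum_congr rfl e1, Finset.sum_const, nsmul_eq_mul]

/-- the sum of the identities of the coordinates of a matching -/
theorem sum_ident (hI : IdnStmt) {ι T : Type} [Fintype ι] (D : Dat ι T) {S R : Finset ι}
    {p : ι → ℚ} {f : (ι → ℚ) → ℚ} {M : Finset T} (hRay : D.Ray S R p f) {A : Finset ι}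
    (hA : A ⊆ S \ R) (hM : D.PM (S \ R) A M) (l : ι → ℚ) (hl : D.Sol S l) :
    ∑ a ∈ A, l a + (∑ k ∈ M, ∑ r ∈ R, (D.x k r : ℚ) * p r) * f l = M.card := by
  rw [← pm_sum D hA hM l, Finset.sum_mul, ← Finset.sum_add_distrib]
  have e : ∀ k ∈ M, ∑ a ∈ S \ R, (D.x k a : ℚ) * l a + (∑ r ∈ R, (D.x k r : ℚ) * p r) * f l =
      1 := by
    intro k hk
    rw [← (hI ι T D S).1 l hl k, ← Finset.sum_sdiff hRay.1, Finset.sum_mul]
    have e2 : ∑ r ∈ R, (D.x k r : ℚ) * p r * f l = ∑ r ∈ R, (D.x k r : ℚ) * l r := by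
      apply Finset.sum_congr rfl
      intro r hr
      rw [(hRay.2.1 r hr).2 l hl]; ring
    rw [e2]
  rw [Finset.sum_congr rfl e, Finset.sum_const, nsmul_eq_mul, mul_one]

theorem sml (hI : IdnStmt) (_ : RayStmt) : SmlStmt := by
  intro ι T _ D S R R' p p' f f' M M' hV hV' hN hM hM' htouch
  obtain ⟨_, hRay, _⟩ := hV
  obtain ⟨_, hRay', _⟩ := hV'
  have hA : D.N (S \ R) ⊆ S \ R := Finset.filter_subset _ _
  have hA' : D.N (S \ R') ⊆ S \ R' := Finset.filter_subset _ _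
  set Th : ℚ := ∑ k ∈ M, ∑ r ∈ R, (D.x k r : ℚ) * p r with hTh
  set Th' : ℚ := ∑ k ∈ M', ∑ r ∈ R', (D.x k r : ℚ) * p' r with hTh'
  have hcard : (M.card : ℚ) = M'.card := by
    have c1 := pm_card D hA hM
    have c2 := pm_card D hA' hM'
    rw [← hN] at c2
    linarith
  have heq : ∀ l, D.Sol S l → Th * f l = Th' * f' l := by
    intro l hl
    have s1 := sum_ident hI D hRay hA hM l hl
    have s2 := sum_ident hI D hRay' hA' hM' l hl
    rw [← hN, ← hcard] at s2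
    linarith
  have hpos : 0 < Th := by
    obtain ⟨k, hk, r, hr, hx⟩ := htouch
    rw [hTh]
    apply Finset.sum_pos' (fun k _ => Finset.sum_nonneg fun r hr => by
      have := (hRay.2.1 r hr).1
      positivity) ⟨k, hk, _⟩
    apply Finset.sum_pos' (fun r hr => by
      have := (hRay.2.1 r hr).1
      positivity) ⟨r, hr, _⟩
    have hp := (hRay.2.1 r hr).1
    have hx' : (0 : ℚ) < D.x k r := by exact_mod_cast Nat.pos_of_ne_zero hx
    exact mul_pos hx' hp
  have hnn : 0 ≤ Th' := by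
    rw [hTh']
    exact Finset.sum_nonneg fun k _ => Finset.sum_nonneg fun r hr => by
      have := (hRay'.2.1 r hr).1
      positivity
  have hne : Th' ≠ 0 := by
    intro h0
    obtain ⟨l, l', hl, hl', hd⟩ := hRay.2.2
    have e1 := heq l hl
    have e2 := heq l' hl'
    rw [h0, zero_mul] at e1 e2
    apply hd
    have z1 : f l = 0 := (mul_eq_zero.mp e1).resolve_left hpos.ne'
    have z2 : f l' = 0 := (mul_eq_zero.mp e2).resolve_left hpos.ne'
    rw [z1, z2]
  have hpos' : 0 < Th' := lt_of_le_of_ne hnn (Ne.symm hne)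
  refine ⟨Th / Th', div_pos hpos hpos', fun l hl => ?_⟩
  have := heq l hl
  field_simp
  linarith

end Pool.Agent.KTB.H73
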